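import Pool.Agent.Helper39.MH.Final

set_option autoImplicit false

namespace Pool.Agent.Results.MP_16b0ee_an.BrennanMoment

/-- The circle means of `1 / |ψ'|²` over the class Sigma grow at most like the power `21/20` of
`R² / (R² - 1)`, uniformly in the class. -/
theorem result :
    ∃ C : ℝ, ∀ ψ : ℂ → ℂ,
      DifferentiableOn ℂ ψ {z : ℂ | 1 < ‖z‖} →
      Set.InjOn ψ {z : ℂ | 1 < ‖z‖} →
      (∃ c : ℂ, Filter.Tendsto (fun z => ψ z - z) (Bornology.cobounded ℂ) (nhds c)) →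
      ∀ R : ℝ, 1 < R →
        (1 / (2 * Real.pi)) * ∫ θ in (0:ℝ)..(2 * Real.pi),
          1 / ‖deriv ψ ((R : ℂ) * Complex.exp ((θ : ℂ) * Complex.I))‖ ^ 2
          ≤ C * (R ^ 2 / (R ^ 2 - 1)) ^ (21 / 20 : ℝ) :=
  Pool.Agent.Helper39.MH.brennan_mean

end Pool.Agent.Results.MP_16b0ee_an.BrennanMoment
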